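import Pool.Agent.K1H44.LC.Plan

/-! Piece ID of project LC -/

set_option autoImplicit false

open Finset

namespace Pool.Agent.K1H28.LC

open Pool.Agent.K1H44.LC

theorem t_ID : S_ID := by
  intro p q hpq b a _ hL
  have hp : (2 : ℝ) ≤ p := by exact_mod_cast hpq.1.two_le
  have hq : (2 : ℝ) ≤ q := by exact_mod_cast hpq.2.1.two_le
  have hp0 : (0 : ℝ) < p := by linarith
  have hq0 : (0 : ℝ) < q := by linarith
  set f : ℕ → ℝ := fun u => 1 / ((p : ℝ) ^ u * (q : ℝ) ^ L p q u) with hf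
  have hfpos : ∀ u, 0 ≤ f u := fun u => by rw [hf]; positivity
  have hfle : ∀ u, f u ≤ (1 / (p : ℝ)) ^ u := by
    intro u
    rw [one_div_pow, hf]
    exact one_div_le_one_div_of_le (by positivity)
      (le_mul_of_one_le_right (by positivity) (one_le_pow₀ (by linarith)))
  have hS : Summable f := Summable.of_nonneg_of_le hfpos hfle
    (summable_geometric_of_lt_one (by positivity) (by rw [div_lt_one hp0]; linarith))
  have her : ∀ u, er p q b a u = (p : ℝ) ^ b * (q : ℝ) ^ a * f (u + (b + 1)) - f (u + 1) := by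
    intro u
    have e : u + (b + 1) = u + 1 + b := by ring
    have e2 : (p : ℝ) ^ (u + 1 + b) = (p : ℝ) ^ (u + 1) * (p : ℝ) ^ b := pow_add _ _ _
    simp only [er, hf]
    rw [e, e2]
    have h1 : (p : ℝ) ^ (u + 1) ≠ 0 := by positivity
    have h2 : (p : ℝ) ^ b ≠ 0 := by positivity
    have h3 : (q : ℝ) ^ L p q (u + 1 + b) ≠ 0 := by positivity
    have h4 : (q : ℝ) ^ L p q (u + 1) ≠ 0 := by positivity
    field_simp
  have hs1 : Summable fun u => f (u + (b + 1)) := (summable_nat_add_iff (b + 1)).2 hS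
  have hs2 : Summable fun u => f (u + 1) := (summable_nat_add_iff 1).2 hS
  have hA : A p q = ∑' u, f u := rfl
  have hL0 : L p q 0 = 0 := by simp [L]
  have hLm : ∀ u ≤ b, L p q u ≤ a := fun u hu =>
    (Nat.log_mono_right (Nat.pow_le_pow_right hpq.1.pos hu)).trans hL
  refine ⟨((hs1.mul_left ((p : ℝ) ^ b * (q : ℝ) ^ a)).sub hs2).congr fun u => (her u).symm,
    (∑ u ∈ range (b + 1), (p : ℤ) ^ (b - u) * (q : ℤ) ^ (a - L p q u)) - 1, ?_⟩
  rw [tsum_congr her, Summable.tsum_sub (hs1.mul_left _) hs2, tsum_mul_left]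
  have h1 := hS.sum_add_tsum_nat_add (b + 1)
  have h2 := hS.sum_add_tsum_nat_add 1
  rw [sum_range_one] at h2
  have hf0 : f 0 = 1 := by simp [hf, hL0]
  have hN : (((∑ u ∈ range (b + 1), (p : ℤ) ^ (b - u) * (q : ℤ) ^ (a - L p q u)) - 1 : ℤ) : ℝ) =
      (p : ℝ) ^ b * (q : ℝ) ^ a * (∑ u ∈ range (b + 1), f u) - 1 := by
    push_cast
    rw [mul_sum]
    congr 1
    refine sum_congr rfl fun u hu => ?_
    have hu' : u ≤ b := Nat.lt_succ_iff.1 (mem_range.1 hu)
    have e1 : (p : ℝ) ^ b = (p : ℝ) ^ (b - u) * (p : ℝ) ^ u := by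
      rw [← pow_add, Nat.sub_add_cancel hu']
    have e2 : (q : ℝ) ^ a = (q : ℝ) ^ (a - L p q u) * (q : ℝ) ^ L p q u := by
      rw [← pow_add, Nat.sub_add_cancel (hLm u hu')]
    simp only [hf]
    rw [e1, e2]
    have h1 : (p : ℝ) ^ u ≠ 0 := by positivity
    have h3 : (q : ℝ) ^ L p q u ≠ 0 := by positivity
    field_simp
  rw [hN, hA]
  have h3 : ∑' u, f (u + (b + 1)) = ∑' u, f u - ∑ u ∈ range (b + 1), f u := by linarith
  have h4 : ∑' u, f (u + 1) = ∑' u, f u - 1 := by linarith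
  rw [h3, h4]
  ring

end Pool.Agent.K1H28.LC
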